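import Mathlib

set_option autoImplicit false

namespace Pool.Agent.Results.MP_4d4a97_an.Universal

open Set MeasureTheory Cardinal

/-- `InR a b f D g`: the function `g` with domain `D ⊆ (a,b)` belongs to `R(f₁,…,fₙ)`. -/
inductive InR (a b : ℝ) {n : ℕ} (f : Fin n → ℝ → ℝ) : Set ℝ → (ℝ → ℝ) → Prop
  | base (i : Fin n) : InR a b f (Ioo a b) (f i)
  | rat (m : ℕ) (D : Fin m → Set ℝ) (g : Fin m → ℝ → ℝ) (P Q : MvPolynomial (Fin m) ℝ) :
      (∀ j, InR a b f (D j) (g j)) →
      InR a b f {x | x ∈ Ioo a b ∧ (∀ j, x ∈ D j) ∧ MvPolynomial.eval (fun j => g j x) Q ≠ 0}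
        (fun x => MvPolynomial.eval (fun j => g j x) P / MvPolynomial.eval (fun j => g j x) Q)
  | comp (D E : Set ℝ) (h k : ℝ → ℝ) : InR a b f D h → InR a b f E k →
      InR a b f {x | x ∈ E ∧ k x ∈ D} (h ∘ k)

noncomputable def e : (ℕ → Bool) → ℝ := cantorFunction (1 / 3)

lemma e_bd (s : ℕ → Bool) : 0 ≤ e s ∧ e s ≤ 3 / 2 := by
  refine ⟨tsum_nonneg fun n => cantorFunctionAux_nonneg (by norm_num), ?_⟩
  refine (cantorFunction_le (g := fun _ => true) (by norm_num) (by norm_num) (by simp)).trans ?_
  simp only [cantorFunction, cantorFunctionAux, cond_true]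
  rw [tsum_geometric_of_lt_one (by norm_num) (by norm_num)]; norm_num

lemma e_cont : Continuous e := by
  refine continuous_tsum (fun n => ?_) (summable_geometric_of_lt_one (r := 1 / 3) (by norm_num)
    (by norm_num)) fun n s => ?_
  · exact (continuous_of_discreteTopology (f := fun b : Bool => cond b ((1 / 3 : ℝ) ^ n) 0)).comp
      (continuous_apply n)
  · unfold cantorFunctionAux
    cases s n <;> simp

lemma e_null : volume (range e) = 0 := by
  have h1 : volume (range e) ≠ ⊤ := ne_top_of_le_ne_top (by simp)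
    (measure_mono (t := Icc 0 (3 / 2)) (by rintro _ ⟨s, rfl⟩; exact e_bd s))
  have h2 : ∀ c : ℝ, volume ((fun x => c + 1 / 3 * x) '' range e) =
      ENNReal.ofReal (1 / 3) * volume (range e) := fun c => by
    rw [← image_image (fun x => c + x) (fun x => (1 / 3 : ℝ) * x), image_add_left,
      measure_preimage_add]
    refine (Measure.addHaar_smul volume (1 / 3 : ℝ) (range e)).trans ?_
    rw [Module.finrank_self, pow_one, abs_of_pos (by norm_num)]
  have h3 : range e ⊆ (fun x => 0 + 1 / 3 * x) '' range e ∪ (fun x => 1 + 1 / 3 * x) '' range e := by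
    rintro _ ⟨s, rfl⟩
    have := cantorFunction_succ (c := 1 / 3) s (by norm_num) (by norm_num)
    cases h : s 0
    · exact Or.inl ⟨_, ⟨_, rfl⟩, by rw [h] at this; exact this.symm⟩
    · exact Or.inr ⟨_, ⟨_, rfl⟩, by rw [h] at this; exact this.symm⟩
  have h4 := (measure_mono h3).trans (measure_union_le (μ := volume) _ _)
  rw [h2, h2] at h4
  lift volume (range e) to NNReal using h1 with v
  have h5 := ENNReal.toReal_mono (by finiteness) h4
  rw [ENNReal.toReal_add (by finiteness) (by finiteness), ENNReal.toReal_mul,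
    ENNReal.toReal_ofReal (by norm_num), ENNReal.coe_toReal] at h5
  have : (v : ℝ) = 0 := le_antisymm (by linarith) v.2
  exact_mod_cast this

def il (s t : ℕ → Bool) (n : ℕ) : Bool := if n % 2 = 0 then s (n / 2) else t (n / 2)

lemma e_il (s t : ℕ → Bool) : e (il s t) = e (il s fun _ => false) + e (il (fun _ => false) t) := by
  unfold e cantorFunction
  rw [← (summable_cantor_function _ (by norm_num) (by norm_num)).tsum_add
    (summable_cantor_function _ (by norm_num) (by norm_num))]
  refine tsum_congr fun n => ?_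
  unfold cantorFunctionAux il
  split_ifs <;> simp

lemma il_inj {s t s' t' : ℕ → Bool} (h : e (il s t) = e (il s' t')) : s = s' ∧ t = t' := by
  have := cantorFunction_injective (by norm_num) (by norm_num) h
  refine ⟨funext fun n => ?_, funext fun n => ?_⟩
  · simpa [il] using congrFun this (2 * n)
  · simpa [il, Nat.add_mod, Nat.mul_add_div] using congrFun this (2 * n + 1)

theorem result : ∃ (a b : ℝ) (n : ℕ) (f : Fin n → ℝ → ℝ), a < b ∧
    (∀ i, IntegrableOn (f i) (Ioo a b)) ∧
    ∀ (D : Set ℝ) (g : ℝ → ℝ), InR a b f D g → ∀ α β : ℝ, α < β → Ioo α β ⊆ Ioo a b →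
      (∀ᵐ x, x ∈ Ioo α β → x ∈ D) → IntegrableOn g (Ioo α β) →
      ∃ (D' : Set ℝ) (h : ℝ → ℝ), InR a b f D' h ∧ Ioo α β ⊆ D' ∧
        ∀ x ∈ Ioo α β, h x = ∫ t in α..x, g t := by
  classical
  obtain ⟨q, hq⟩ := exists_surjective_nat (ℚ × ℚ)
  have ext : ∀ x y : ℝ, (∀ r : ℚ, x < r ↔ y < r) → x = y := fun x y h =>
    le_antisymm (le_of_forall_lt_rat_imp_le fun r hr => ((h r).2 hr).le)
      (le_of_forall_lt_rat_imp_le fun r hr => ((h r).1 hr).le)
  let bt : ℝ → ℕ → Bool := fun x n => decide (x < (q n).2)
  let cd : C(ℝ, ℝ) → ℕ → Bool := fun G n => decide (G (q n).1 < (q n).2)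
  have hbt : Function.Injective bt := fun x y h => ext x y fun r => by
    obtain ⟨n, hn⟩ := hq (0, r)
    simpa [bt, hn] using congrFun h n
  have hcd : Function.Injective cd := fun G H h => ContinuousMap.ext (congrFun
    (Rat.denseRange_cast.equalizer G.2 H.2 (funext fun p => ext _ _ fun r => by
      obtain ⟨n, hn⟩ := hq (p, r)
      simpa [cd, hn] using congrFun h n)))
  let enc : ℝ × C(ℝ, ℝ) → ℝ := fun p => 1 / 4 + 1 / 4 * e (il (bt p.1) (cd p.2))
  have henc : Function.Injective enc := fun p r h => by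
    have := il_inj (show e (il (bt p.1) (cd p.2)) = e (il (bt r.1) (cd r.2)) by
      simp only [enc] at h; linarith)
    exact Prod.ext (hbt this.1) (hcd this.2)
  let f1 : ℝ → ℝ := fun x => 1 / 4 + 1 / 4 * e (il (bt x) fun _ => false)
  let f2 : ℝ → ℝ := Function.extend enc (fun p => p.2 p.1) 0
  refine ⟨0, 1, 2, ![f1, f2], one_pos, fun i => ?_, fun D g _ α β _ hs _ hg => ?_⟩
  · fin_cases i
    · have : Measurable f1 := by
        refine (e_cont.measurable.comp (measurable_pi_lambda _ fun n => ?_)).const_mul _ |>.const_add _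
        unfold il
        split_ifs
        · exact measurable_to_bool (by
            convert measurableSet_Iio (a := ((q (n / 2)).2 : ℝ)) using 1
            ext x; simp [bt])
        · exact measurable_const
      refine Measure.integrableOn_of_bounded (M := 1) (by simp) this.aestronglyMeasurable
        (Filter.Eventually.of_forall fun x => ?_)
      have := e_bd (il (bt x) fun _ => false)
      change ‖f1 x‖ ≤ 1
      rw [Real.norm_eq_abs, abs_le]
      constructor <;> simp only [f1] <;> linarith [this.1, this.2]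
    · refine ((integrable_zero _ _ _).congr ?_).integrableOn
      have : volume ((fun x => 1 / 4 + 1 / 4 * x) '' range e) = 0 := by
        rw [← image_image (fun x => 1 / 4 + x) (fun x => (1 / 4 : ℝ) * x), image_add_left,
          measure_preimage_add]
        refine (Measure.addHaar_smul volume (1 / 4 : ℝ) (range e)).trans ?_
        rw [e_null, mul_zero]
      refine measure_mono_null (fun y hy => ?_) this
      by_contra hc
      have : f2 y = 0 := Function.extend_apply' _ _ _ fun ⟨p, hp⟩ => hc ⟨_, ⟨_, rfl⟩, hp⟩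
      exact hy this.symm
  · have hi : Integrable ((Ioo α β).indicator g) :=
      (integrable_indicator_iff measurableSet_Ioo).2 hg
    let G : C(ℝ, ℝ) := ⟨fun x => ∫ t in α..x, (Ioo α β).indicator g t,
      intervalIntegral.continuous_primitive (fun _ _ => hi.intervalIntegrable) α⟩
    have h1 := InR.comp _ _ _ _ (InR.base (a := 0) (b := 1) (f := ![f1, f2]) 1)
      (InR.rat 1 (fun _ => Ioo 0 1) (fun _ => f1)
        (MvPolynomial.X 0 + MvPolynomial.C (1 / 4 * e (il (fun _ => false) (cd G)))) 1
        fun _ => InR.base (f := ![f1, f2]) 0)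
    have h2 : ∀ x, f1 x + 1 / 4 * e (il (fun _ => false) (cd G)) = enc (x, G) := fun x => by
      simp only [f1, enc]; rw [e_il (bt x) (cd G)]; ring
    refine ⟨_, _, h1, fun x hx => ⟨⟨hs hx, fun _ => hs hx, by simp⟩, ?_⟩, fun x hx => ?_⟩
    · have := e_bd (il (bt x) (cd G))
      simp only [map_add, MvPolynomial.eval_X, MvPolynomial.eval_C, map_one, div_one, h2, enc]
      constructor <;> linarith [this.1, this.2]
    · simp only [Function.comp, map_add, MvPolynomial.eval_X, MvPolynomial.eval_C, map_one,
        div_one, h2]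
      refine (henc.extend_apply (fun p => p.2 p.1) 0 (x, G)).trans ?_
      change ∫ t in α..x, (Ioo α β).indicator g t = _
      rw [intervalIntegral.integral_of_le hx.1.le, intervalIntegral.integral_of_le hx.1.le]
      exact setIntegral_congr_fun measurableSet_Ioc fun t ht =>
        indicator_of_mem (show t ∈ Ioo α β from ⟨ht.1, ht.2.trans_lt hx.2⟩) _

end Pool.Agent.Results.MP_4d4a97_an.Universal
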